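import Pool.Agent.E8helper59.TS.Stm

set_option autoImplicit false
open MeasureTheory Set Filter Topology
open scoped Pointwise ENNReal

namespace Pool.Agent.E8helper74.TS

open Pool.Agent.E8helper59.TS

/-- the unit cube has volume one -/
theorem vol_cube (m : ℕ) : volume (Icc (0 : E m) 1) = 1 := by
  have h1 : (Icc (0 : E m) 1) = (Icc (0 : ℝ × ℝ) 1) ×ˢ Icc (0 : Fin m → ℝ) 1 := by
    rw [Icc_prod_eq]; rfl
  have h2 : (Icc (0 : ℝ × ℝ) 1) = (Icc (0 : ℝ) 1) ×ˢ Icc (0 : ℝ) 1 := by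
    rw [Icc_prod_eq]; rfl
  have h3 : volume (Icc (0 : Fin m → ℝ) 1) = 1 := by
    rw [Real.volume_Icc_pi]; simp
  have h4 : volume (Icc (0 : ℝ × ℝ) 1) = 1 := by
    rw [h2, Measure.volume_eq_prod, Measure.prod_prod]; simp
  rw [h1, Measure.volume_eq_prod, Measure.prod_prod, h3, h4]; simp

theorem vol_cube2 : volume (Icc (0 : ℝ × ℝ) 1) = 1 := by
  have h2 : (Icc (0 : ℝ × ℝ) 1) = (Icc (0 : ℝ) 1) ×ˢ Icc (0 : ℝ) 1 := by
    rw [Icc_prod_eq]; rfl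
  rw [h2, Measure.volume_eq_prod, Measure.prod_prod]; simp

theorem vol_cubem (m : ℕ) : volume (Icc (0 : Fin m → ℝ) 1) = 1 := by
  rw [Real.volume_Icc_pi]; simp

/-- translates of linear images -/
theorem vol_image {V : Type} [NormedAddCommGroup V] [NormedSpace ℝ V] [MeasurableSpace V]
    [BorelSpace V] [FiniteDimensional ℝ V] (μ : Measure V) [μ.IsAddHaarMeasure]
    (v : V) (L : V ≃L[ℝ] V) (s : Set V) :
    μ ((fun x => v + L x) '' s) =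
      ENNReal.ofReal |LinearMap.det ((L : V →L[ℝ] V) : V →ₗ[ℝ] V)| * μ s := by
  have h1 : (fun x => v + L x) '' s = (fun y => v + y) '' (L '' s) := by
    rw [image_image]
  rw [h1, image_add_left, measure_preimage_add, Measure.addHaar_image_continuousLinearEquiv]
  rfl

theorem haarE (m : ℕ) : (volume : Measure (E m)).IsAddHaarMeasure :=
  Measure.prod.instIsAddHaarMeasure (volume : Measure (ℝ × ℝ)) (volume : Measure (Fin m → ℝ))

theorem t_CAP : S_CAP := by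
  intro m D P₀ hDc hDv hDi hP hmin
  have := haarE m
  obtain ⟨v₀, L₀, hP₀⟩ := hP
  have hvol : volume P₀ = ENNReal.ofReal |LinearMap.det ((L₀ : E m →L[ℝ] E m) : E m →ₗ[ℝ] E m)| := by
    rw [hP₀, vol_image volume v₀ L₀ (Icc 0 1), vol_cube, mul_one]
  have hdet : 0 < |LinearMap.det ((L₀ : E m →L[ℝ] E m) : E m →ₗ[ℝ] E m)| := by
    rw [abs_pos]
    exact (LinearEquiv.isUnit_det' L₀.toLinearEquiv).ne_zero
  have hreal : (volume P₀).toReal = |LinearMap.det ((L₀ : E m →L[ℝ] E m) : E m →ₗ[ℝ] E m)| := by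
    rw [hvol, ENNReal.toReal_ofReal hdet.le]
  have hfin : volume P₀ ≠ ⊤ := by rw [hvol]; exact ENNReal.ofReal_ne_top
  refine ⟨by rw [hreal]; exact hdet, hfin, ?_⟩
  intro L hL
  obtain ⟨p₀, hp₀⟩ : D.Nonempty := hDi.mono interior_subset
  -- the minima
  obtain ⟨k₁, hk₁, hm₁⟩ := hDc.exists_isMinOn ⟨p₀, hp₀⟩
    (f := fun p => (L p).1) (by fun_prop)
  obtain ⟨k₂, hk₂, hm₂⟩ := hDc.exists_isMinOn ⟨p₀, hp₀⟩
    (f := fun p => (L p).2) (by fun_prop)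
  have hd : ∀ k ∈ D, ∀ k' ∈ D, |(L k).1 - (L k').1| ≤ 1 ∧ |(L k).2 - (L k').2| ≤ 1 := by
    intro k hk k' hk'
    have h := hL ((1 / 2 : ℝ) • (k - k')) ⟨k, hk, k', hk', rfl⟩
    rw [map_smul, map_sub] at h
    simp only [Prod.smul_fst, Prod.smul_snd, Prod.fst_sub, Prod.snd_sub, smul_eq_mul, abs_mul] at h
    have h2 : |(1 / 2 : ℝ)| = 1 / 2 := by norm_num
    rw [h2] at h
    exact ⟨by linarith [h.1], by linarith [h.2]⟩
  set a : ℝ × ℝ := ((L k₁).1, (L k₂).2) with ha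
  -- the parallelotope
  let M : E m ≃L[ℝ] E m := L.symm.prodCongr (ContinuousLinearEquiv.refl ℝ (Fin m → ℝ))
  have hM : ∀ x : E m, M x = (L.symm x.1, x.2) := fun x => rfl
  set P : Set (E m) := (fun x => (L.symm a, (0 : Fin m → ℝ)) + M x) '' Icc 0 1 with hPdef
  have hPt : Ptope m P := ⟨(L.symm a, 0), M, rfl⟩
  have hsub : Cyl m D ⊆ P := by
    rintro ⟨p, z⟩ ⟨hp, hz⟩
    refine ⟨(L p - a, z), ?_, ?_⟩
    · have h1 : a.1 ≤ (L p).1 := hm₁ hp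
      have h2 : a.2 ≤ (L p).2 := hm₂ hp
      have h3 : (L p).1 ≤ a.1 + 1 := by
        have := (hd p hp k₁ hk₁).1
        rw [abs_le] at this
        simp only [ha]; linarith [this.2]
      have h4 : (L p).2 ≤ a.2 + 1 := by
        have := (hd p hp k₂ hk₂).2
        rw [abs_le] at this
        simp only [ha]; linarith [this.2]
      refine ⟨⟨⟨?_, ?_⟩, hz.1⟩, ⟨⟨?_, ?_⟩, hz.2⟩⟩
      · show (0 : ℝ) ≤ (L p - a).1
        rw [Prod.fst_sub]; linarith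
      · show (0 : ℝ) ≤ (L p - a).2
        rw [Prod.snd_sub]; linarith
      · show (L p - a).1 ≤ (1 : ℝ)
        rw [Prod.fst_sub]; linarith
      · show (L p - a).2 ≤ (1 : ℝ)
        rw [Prod.snd_sub]; linarith
    · show (L.symm a, (0 : Fin m → ℝ)) + M (L p - a, z) = (p, z)
      rw [hM]
      simp
  have hle := hmin P hPt hsub
  -- the volume of `P`
  have hPeq : P = ((fun x => L.symm a + L.symm x) '' Icc (0 : ℝ × ℝ) 1) ×ˢ
      Icc (0 : Fin m → ℝ) 1 := by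
    ext ⟨p, z⟩
    constructor
    · rintro ⟨⟨x, y⟩, ⟨hx0, hx1⟩, hxy⟩
      have e1 : L.symm a + L.symm x = p := by
        have := congrArg Prod.fst hxy
        simpa [hM] using this
      have e2 : y = z := by
        have := congrArg Prod.snd hxy
        simpa [hM] using this
      refine ⟨⟨x, ⟨hx0.1, hx1.1⟩, e1⟩, ?_⟩
      show z ∈ Icc (0 : Fin m → ℝ) 1
      rw [← e2]
      exact ⟨hx0.2, hx1.2⟩
    · rintro ⟨⟨x, hx, hxp⟩, hz⟩
      refine ⟨(x, z), ⟨⟨hx.1, hz.1⟩, ⟨hx.2, hz.2⟩⟩, ?_⟩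
      show (L.symm a, (0 : Fin m → ℝ)) + M (x, z) = (p, z)
      rw [hM]
      have hxp' : L.symm a + L.symm x = p := hxp
      show (L.symm a + L.symm x, (0 : Fin m → ℝ) + z) = (p, z)
      rw [hxp', zero_add]
  have hPvol : volume P = ENNReal.ofReal
      |LinearMap.det ((L.symm : (ℝ × ℝ) →L[ℝ] (ℝ × ℝ)) : (ℝ × ℝ) →ₗ[ℝ] (ℝ × ℝ))| := by
    rw [hPeq, Measure.volume_eq_prod, Measure.prod_prod, vol_cubem, mul_one,
      vol_image volume (L.symm a) L.symm (Icc 0 1), vol_cube2, mul_one]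
  rw [hPvol] at hle
  have hle2 : (volume P₀).toReal ≤
      |LinearMap.det ((L.symm : (ℝ × ℝ) →L[ℝ] (ℝ × ℝ)) : (ℝ × ℝ) →ₗ[ℝ] (ℝ × ℝ))| := by
    exact ENNReal.toReal_le_of_le_ofReal (abs_nonneg _) hle
  have hdd : LinearMap.det ((L.symm : (ℝ × ℝ) →L[ℝ] (ℝ × ℝ)) : (ℝ × ℝ) →ₗ[ℝ] (ℝ × ℝ)) *
      LinearMap.det ((L : (ℝ × ℝ) →L[ℝ] (ℝ × ℝ)) : (ℝ × ℝ) →ₗ[ℝ] (ℝ × ℝ)) = 1 := by
    have := LinearEquiv.det_symm_mul_det L.toLinearEquiv
    exact this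
  calc (volume P₀).toReal *
        |LinearMap.det ((L : (ℝ × ℝ) →L[ℝ] (ℝ × ℝ)) : (ℝ × ℝ) →ₗ[ℝ] (ℝ × ℝ))|
      ≤ |LinearMap.det ((L.symm : (ℝ × ℝ) →L[ℝ] (ℝ × ℝ)) : (ℝ × ℝ) →ₗ[ℝ] (ℝ × ℝ))| *
        |LinearMap.det ((L : (ℝ × ℝ) →L[ℝ] (ℝ × ℝ)) : (ℝ × ℝ) →ₗ[ℝ] (ℝ × ℝ))| :=
        mul_le_mul_of_nonneg_right hle2 (abs_nonneg _)
    _ = 1 := by rw [← abs_mul, hdd, abs_one]

end Pool.Agent.E8helper74.TS
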